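import Mathlib
import Pool.Agent.H74.WordSL2

set_option autoImplicit false

namespace Pool.Agent.Results.MP_11bee9_al.MissReg

open Matrix Pool.Agent.H74.WordSL2

theorem two_eq (F : Type) [Field F] [CharP F 2] : (2 : F) = 0 := by
  exact_mod_cast CharP.cast_eq_zero F 2

def m (F : Type) [Field F] [CharP F 2] : Matrix.SpecialLinearGroup (Fin 2) F :=
  ⟨!![0, 1; 1, 1], by rw [det_fin_two_of]; linear_combination -two_eq F⟩

theorem mk_inj (F : Type) [Field F] [CharP F 2] (a b : Matrix.SpecialLinearGroup (Fin 2) F)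
    (h : (QuotientGroup.mk a : Matrix.ProjectiveSpecialLinearGroup (Fin 2) F)
      = QuotientGroup.mk b) : a = b := by
  have h2 := two_eq F
  rw [QuotientGroup.eq] at h
  obtain ⟨r, hr, hr'⟩ := Matrix.SpecialLinearGroup.mem_center_iff.1 h
  have hr1 : r = 1 := by
    have : (r - 1) ^ 2 = 0 := by
      rw [Fintype.card_fin] at hr
      linear_combination hr + (1 - r) * h2
    exact sub_eq_zero.1 (pow_eq_zero_iff (by norm_num) |>.1 this)
  apply inv_mul_eq_one.1
  apply Subtype.ext
  rw [← hr', hr1]
  simp

theorem missed (F : Type) [Field F] [CharP F 2] [Finite F] (n : ℕ) (hn : ¬ 3 ∣ n)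
    (hc : Nat.card F = 2 ^ n) (p q : Matrix.ProjectiveSpecialLinearGroup (Fin 2) F) :
    FreeGroup.lift ![p, q] w ≠ QuotientGroup.mk (m F) := by
  intro h
  have h2 := two_eq F
  obtain ⟨a, rfl⟩ := QuotientGroup.mk_surjective p
  obtain ⟨b, rfl⟩ := QuotientGroup.mk_surjective q
  simp only [lift_w] at h
  simp only [← QuotientGroup.mk_inv, ← QuotientGroup.mk_mul] at h
  have hm := mk_inj F _ _ h
  have ht : (b * a⁻¹ * b⁻¹ : Matrix.SpecialLinearGroup (Fin 2) F).1.trace = a.1.trace := by
    rw [Matrix.SpecialLinearGroup.coe_mul, trace_mul_comm, ← Matrix.SpecialLinearGroup.coe_mul,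
      ← mul_assoc, inv_mul_cancel, one_mul, Matrix.SpecialLinearGroup.coe_inv, adjugate_fin_two]
    simp [trace_fin_two, add_comm]
  obtain ⟨g, hg⟩ := trace_word h2 a.1 (b * a⁻¹ * b⁻¹ : Matrix.SpecialLinearGroup (Fin 2) F).1
    a.2 (b * a⁻¹ * b⁻¹ : Matrix.SpecialLinearGroup (Fin 2) F).2 ht
  simp only [← Matrix.SpecialLinearGroup.coe_mul] at hg
  rw [hm] at hg
  apply no_root n hn hc h2 g
  rw [← hg]
  simp [m, trace_fin_two]

theorem order_m (F : Type) [Field F] [CharP F 2] :
    orderOf (QuotientGroup.mk (m F) : Matrix.ProjectiveSpecialLinearGroup (Fin 2) F) = 3 := by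
  have h2 := two_eq F
  have : Fact (Nat.Prime 3) := ⟨by norm_num⟩
  apply orderOf_eq_prime
  · rw [← QuotientGroup.mk_pow]
    have : m F ^ 3 = 1 := by
      apply Subtype.ext
      rw [pow_succ, pow_two]
      simp only [Matrix.SpecialLinearGroup.coe_mul, m, Matrix.SpecialLinearGroup.coe_one]
      ext i j
      fin_cases i <;> fin_cases j <;> simp [mul_apply, Fin.sum_univ_two]
      · linear_combination h2
      · linear_combination h2
      · linear_combination h2
    rw [this]
    rfl
  · intro h
    have h1 := mk_inj F (m F) 1 h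
    have h3 := congrArg (fun x : Matrix.SpecialLinearGroup (Fin 2) F => x.1 0 0) h1
    simp [m] at h3

theorem cent (K : Type) [Field K] [CharP K 2] [IsAlgClosed K] :
    ∃ P : Matrix.SpecialLinearGroup (Fin 2) K, ∀ h : Matrix.SpecialLinearGroup (Fin 2) K,
      Commute (QuotientGroup.mk h : Matrix.ProjectiveSpecialLinearGroup (Fin 2) K)
        (QuotientGroup.mk (m K)) ↔ (P⁻¹ * h * P).1.IsDiag := by
  have h2 := two_eq K
  obtain ⟨o, ho⟩ : ∃ o : K, o ^ 2 + o + 1 = 0 := by
    obtain ⟨o, ho⟩ := IsAlgClosed.exists_root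
      (Polynomial.X ^ 2 + Polynomial.X + 1 : Polynomial K) (by
        have : (Polynomial.X ^ 2 + Polynomial.X + 1 : Polynomial K).degree = 2 := by
          compute_degree!
        rw [this]; norm_num)
    exact ⟨o, by simpa using ho⟩
  refine ⟨⟨!![1, 1; o, o + 1], by rw [det_fin_two_of]; ring⟩, fun h => ?_⟩
  have key : Commute (QuotientGroup.mk h : Matrix.ProjectiveSpecialLinearGroup (Fin 2) K)
        (QuotientGroup.mk (m K)) ↔ h.1 0 1 = h.1 1 0 ∧ h.1 1 1 = h.1 0 0 + h.1 0 1 := by
    constructor
    · intro hc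
      have h1 : h * m K = m K * h := by
        apply mk_inj K
        rw [QuotientGroup.mk_mul, QuotientGroup.mk_mul]
        exact hc
      have h3 := congrArg (fun x : Matrix.SpecialLinearGroup (Fin 2) K => x.1 0 0) h1
      have h4 := congrArg (fun x : Matrix.SpecialLinearGroup (Fin 2) K => x.1 0 1) h1
      simp [m, mul_apply, Fin.sum_univ_two] at h3 h4
      exact ⟨h3, h4.symm⟩
    · rintro ⟨h3, h4⟩
      have h1 : h * m K = m K * h := by
        apply Subtype.ext
        simp only [Matrix.SpecialLinearGroup.coe_mul, m]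
        ext i j
        fin_cases i <;> fin_cases j <;> simp [mul_apply, Fin.sum_univ_two]
        · exact h3
        · exact h4.symm
        · linear_combination h4 + h3
        · linear_combination -h3
      show _ * _ = _ * _
      rw [← QuotientGroup.mk_mul, ← QuotientGroup.mk_mul, h1]
  rw [key]
  have hd : ∀ M : Matrix (Fin 2) (Fin 2) K, M.IsDiag ↔ M 0 1 = 0 ∧ M 1 0 = 0 := by
    intro M
    constructor
    · intro hM
      exact ⟨hM (by decide), hM (by decide)⟩
    · rintro ⟨h1, h3⟩ i j hij
      fin_cases i <;> fin_cases j <;> simp_all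
  rw [hd]
  simp only [Matrix.SpecialLinearGroup.coe_mul, Matrix.SpecialLinearGroup.coe_inv,
    adjugate_fin_two]
  simp [mul_apply, Fin.sum_univ_two, vecMul, dotProduct]
  generalize h.1 0 0 = a
  generalize h.1 0 1 = b
  generalize h.1 1 0 = c
  generalize h.1 1 1 = d
  constructor
  · rintro ⟨rfl, rfl⟩
    constructor
    · linear_combination b * ho - b * h2
    · linear_combination -b * ho + b * (1 + o) * h2
  · rintro ⟨h3, h4⟩
    constructor
    · linear_combination -(h4 + o * (h3 + h4)) + b * ho
    · linear_combination -(h3 + h4) + o * b * h2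

/-- There is a word in the free group of rank two that is not a power word such that, for
infinitely many n, PSL(2, 2 ^ n) has an element of order prime to 2, whose centraliser in PSL(2, K),
K the algebraic closure, is a conjugate of the diagonal torus, and which is not a value of the
word. -/
theorem result : ∃ w : FreeGroup (Fin 2),
    (¬ ∃ (v : FreeGroup (Fin 2)) (k : ℕ), 2 ≤ k ∧ w = v ^ k) ∧
    Set.Infinite {n : ℕ | 1 ≤ n ∧ ∃ g : Matrix.SpecialLinearGroup (Fin 2) (GaloisField 2 n),
      (orderOf (QuotientGroup.mk g :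
        Matrix.ProjectiveSpecialLinearGroup (Fin 2) (GaloisField 2 n))).Coprime 2 ∧
      (∃ P : Matrix.SpecialLinearGroup (Fin 2) (AlgebraicClosure (GaloisField 2 n)),
        ∀ h : Matrix.SpecialLinearGroup (Fin 2) (AlgebraicClosure (GaloisField 2 n)),
          Commute (QuotientGroup.mk h :
              Matrix.ProjectiveSpecialLinearGroup (Fin 2) (AlgebraicClosure (GaloisField 2 n)))
            (QuotientGroup.mk (Matrix.SpecialLinearGroup.map
              (algebraMap (GaloisField 2 n) (AlgebraicClosure (GaloisField 2 n))) g))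
          ↔ (P⁻¹ * h * P).1.IsDiag) ∧
      ∀ p q : Matrix.ProjectiveSpecialLinearGroup (Fin 2) (GaloisField 2 n),
        FreeGroup.lift ![p, q] w ≠ QuotientGroup.mk g} := by
  refine ⟨w, not_pow, ?_⟩
  apply Set.infinite_of_injective_forall_mem (f := fun k : ℕ => 3 * k + 1)
  · intro a b hab
    simp only at hab
    omega
  · intro k
    have hc : Nat.card (GaloisField 2 (3 * k + 1)) = 2 ^ (3 * k + 1) :=
      GaloisField.card 2 (3 * k + 1) (by omega)
    refine ⟨by omega, m _, ?_, ?_, missed _ (3 * k + 1) (by omega) hc⟩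
    · rw [order_m]
      norm_num
    · have e : Matrix.SpecialLinearGroup.map (algebraMap (GaloisField 2 (3 * k + 1))
          (AlgebraicClosure (GaloisField 2 (3 * k + 1)))) (m _) = m _ := by
        apply Subtype.ext
        ext i j
        fin_cases i <;> fin_cases j <;> simp [m]
      rw [e]
      exact cent _

end Pool.Agent.Results.MP_11bee9_al.MissReg
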